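import Pool.Agent.W770.KP.Stm

/-! Project KP: a polynomial of low degree vanishing on a union of planes. -/

set_option autoImplicit false

open scoped Classical

namespace Pool.Agent.W135.KP

open Pool.Agent.W770.KP

/-- exponent vector of a multiset of size `D` in `n + 1` symbols -/
noncomputable def ex {n D : ℕ} (s : Sym (Fin (n + 1)) D) : Fin n →₀ ℕ :=
  Finsupp.equivFunOnFinite.symm (fun i => Multiset.count i.castSucc (s : Multiset (Fin (n + 1))))

lemma ex_apply {n D : ℕ} (s : Sym (Fin (n + 1)) D) (i : Fin n) :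
    ex s i = Multiset.count i.castSucc (s : Multiset (Fin (n + 1))) := rfl

lemma sum_count {n D : ℕ} (s : Sym (Fin (n + 1)) D) :
    ∑ i, ex s i + Multiset.count (Fin.last n) (s : Multiset (Fin (n + 1))) = D := by
  have h1 := Multiset.sum_count_eq_card (s := Finset.univ) (m := (s : Multiset (Fin (n + 1))))
    (fun a _ => Finset.mem_univ a)
  rw [Fin.sum_univ_castSucc] at h1
  rw [Sym.card_coe] at h1
  exact h1

lemma ex_inj {n D : ℕ} : Function.Injective (ex : Sym (Fin (n + 1)) D → (Fin n →₀ ℕ)) := by
  intro s t h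
  apply Subtype.ext
  apply Multiset.ext.2
  intro a
  have hc : ∀ i : Fin n, Multiset.count i.castSucc (s : Multiset (Fin (n + 1))) =
      Multiset.count i.castSucc (t : Multiset (Fin (n + 1))) := fun i => by
    rw [← ex_apply, ← ex_apply, h]
  refine Fin.lastCases ?_ (fun i => hc i) a
  have h1 := sum_count s
  have h2 := sum_count t
  rw [h] at h1
  have h3 : Multiset.count (Fin.last n) (s : Multiset (Fin (n + 1))) =
      Multiset.count (Fin.last n) (t : Multiset (Fin (n + 1))) := by omega
  exact h3

lemma choose_ineq (D k n : ℕ) : ∀ i, k + i ≤ n →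
    (D + k).choose k * (D + n) ^ i ≤ (D + (k + i)).choose (k + i) * n ^ i := by
  intro i
  induction i with
  | zero => intro _; simp
  | succ i ih =>
    intro h
    have h1 := ih (by omega)
    have h2 := Nat.add_one_mul_choose_eq (D + (k + i)) (k + i)
    have h3 : (D + n) * (k + i + 1) ≤ n * (D + (k + i) + 1) := by
      have : D * (k + i + 1) ≤ D * n := Nat.mul_le_mul_left D (by omega)
      nlinarith
    have h4 : 0 < k + i + 1 := by omega
    refine Nat.le_of_mul_le_mul_right ?_ h4
    have e1 : D + (k + (i + 1)) = (D + (k + i)).succ := by omega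
    have e2 : k + (i + 1) = (k + i).succ := by omega
    rw [e1, e2]
    calc (D + k).choose k * (D + n) ^ (i + 1) * (k + i + 1)
        = ((D + k).choose k * (D + n) ^ i) * ((D + n) * (k + i + 1)) := by ring
      _ ≤ ((D + (k + i)).choose (k + i) * n ^ i) * (n * (D + (k + i) + 1)) :=
          Nat.mul_le_mul h1 h3
      _ = ((D + (k + i)).succ * (D + (k + i)).choose (k + i)) * n ^ (i + 1) := by
          rw [Nat.succ_eq_add_one]; ring
      _ = ((D + (k + i)).succ.choose (k + i).succ * (k + i).succ) * n ^ (i + 1) := by rw [h2]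
      _ = (D + (k + i)).succ.choose (k + i).succ * n ^ (i + 1) * (k + i + 1) := by
          rw [Nat.succ_eq_add_one (k + i)]; ring

lemma exists_D (r N : ℕ) (hr : 1 ≤ r) : ∃ D, D ^ r ≤ N ∧ N < (D + 1) ^ r := by
  refine ⟨Nat.findGreatest (fun D => D ^ r ≤ N) N, ?_, ?_⟩
  · exact Nat.findGreatest_spec (P := fun D => D ^ r ≤ N) (m := 0) (Nat.zero_le _) (by
      rw [zero_pow (by omega)]; exact Nat.zero_le _)
  · by_contra h
    rw [not_lt] at h
    have h1 : Nat.findGreatest (fun D => D ^ r ≤ N) N + 1 ≤ N := by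
      refine le_trans ?_ h
      exact Nat.le_self_pow (by omega) _
    exact Nat.findGreatest_is_greatest (Nat.lt_succ_self _) h1 h

theorem low : S_CP → S_LOW := by
  intro hCP F _ _ m k hk P hP
  obtain ⟨r, hr⟩ : ∃ r, m + 1 = k + r := ⟨m + 1 - k, by omega⟩
  have hr1 : 1 ≤ r := by omega
  have hrr : m + 1 - k = r := by omega
  obtain ⟨D, hD1, hD2⟩ := exists_D r ((m + 1) ^ r * P.card) hr1
  have hcard : P.card * (D + k).choose k < Fintype.card (Sym (Fin (m + 1 + 1)) D) := by
    have e1 : Fintype.card (Sym (Fin (m + 1 + 1)) D) = (D + (m + 1)).choose (m + 1) := by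
      rw [Sym.card_sym_eq_multichoose, Fintype.card_fin, Nat.multichoose_eq]
      have : m + 1 + 1 + D - 1 = D + (m + 1) := by omega
      rw [this, Nat.choose_symm_add]
    rw [e1]
    have h1 := choose_ineq D k (m + 1) r (by omega)
    rw [← hr] at h1
    have h2 : (D + 1) ^ r ≤ (D + (m + 1)) ^ r := Nat.pow_le_pow_left (by omega) r
    have h3 : 0 < (D + k).choose k := Nat.choose_pos (by omega)
    have h4 : (m + 1) ^ r * P.card * (D + k).choose k <
        (D + (m + 1)).choose (m + 1) * (m + 1) ^ r := by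
      calc (m + 1) ^ r * P.card * (D + k).choose k
          < (D + (m + 1)) ^ r * (D + k).choose k :=
            Nat.mul_lt_mul_of_pos_right (lt_of_lt_of_le hD2 h2) h3
        _ = (D + k).choose k * (D + (m + 1)) ^ r := by ring
        _ ≤ _ := h1
    have h5 : (m + 1) ^ r * (P.card * (D + k).choose k) <
        (m + 1) ^ r * (D + (m + 1)).choose (m + 1) := by
      calc _ = (m + 1) ^ r * P.card * (D + k).choose k := by ring
        _ < _ := h4
        _ = _ := by ring
    exact Nat.lt_of_mul_lt_mul_left h5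
  set A : Sym (Fin (m + 1 + 1)) D → MvPolynomial (Fin (m + 1)) F :=
    fun s => MvPolynomial.monomial (ex s) 1 with hA
  have hdeg : ∀ s : Sym (Fin (m + 1 + 1)) D, ∑ i, ex s i ≤ D := fun s => by
    have := sum_count s
    omega
  have hdeg' : ∀ (s : Sym (Fin (m + 1 + 1)) D) (a : F),
      (MvPolynomial.monomial (ex s) a).totalDegree ≤ D := by
    intro s a
    refine (MvPolynomial.totalDegree_monomial_le (ex s) a).trans ?_
    rw [Finsupp.sum_fintype _ _ (fun _ => rfl)]
    exact hdeg s
  obtain ⟨c, hc0, hc⟩ := hCP F (m + 1) k D _ A (fun s => hdeg' s 1) P hP hcard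
  have hlc : lc A c = ∑ s, MvPolynomial.monomial (ex s) (c s) := by
    unfold lc
    refine Finset.sum_congr rfl fun s _ => ?_
    rw [hA]
    simp only
    rw [MvPolynomial.C_mul_monomial, mul_one]
  refine ⟨lc A c, ?_, ?_, hc⟩
  · intro h0
    apply hc0
    funext s₀
    have h1 := congrArg (MvPolynomial.coeff (ex s₀)) h0
    rw [hlc, MvPolynomial.coeff_sum, MvPolynomial.coeff_zero] at h1
    rw [Finset.sum_eq_single s₀ (fun s _ hs => by
      rw [MvPolynomial.coeff_monomial, if_neg (fun h => hs (ex_inj h))])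
      (fun h => absurd (Finset.mem_univ s₀) h), MvPolynomial.coeff_monomial, if_pos rfl] at h1
    exact h1
  · have hQ : (lc A c).totalDegree ≤ D := by
      rw [hlc]
      refine (MvPolynomial.totalDegree_finsetSum _ _).trans ?_
      exact Finset.sup_le fun s _ => hdeg' s (c s)
    rw [hrr]
    have h1 : (lc A c).totalDegree ^ r ≤ (m + 1) ^ r * P.card :=
      (Nat.pow_le_pow_left hQ r).trans hD1
    exact_mod_cast h1

end Pool.Agent.W135.KP
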